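import Mathlib
import Pool.Agent.Q64.IF.Fin

/-! # MP_edeaa2_an: products of linear forms some of which span an invariant subspace

Let `d ≥ 3`, let `g` be a real invertible `d × d` matrix and let `F` be the product of the linear
forms given by its rows. Let `h` be a limit of matrices `diag(a) g γ` (`∏ a = ±1`, `γ ∈ GL_d(ℤ)`),
for example `h = g`, and suppose that some of the rows of `h`, not all of them, say the rows with
index in `I`, span a subspace which is invariant under a rational matrix `σ` (`l ↦ l σ`).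

1. Let `|I|` be prime to `d`, and let `d` be prime and `σ` not scalar, or let `σ` be any rational
   matrix whose minimal polynomial has degree `d`. Then `F` is proportional to an integral form or
   `F` takes arbitrarily small values at nonzero integer points.
2. Let the minimal polynomial of `σ` be irreducible of degree `d`. Then `F` is proportional to an
   integral form, or `F` takes arbitrarily small values at nonzero integer points, or some limit
   `h'` of `g` conjugates a matrix `T = q(σ)`, `q ∈ ℚ[X]`, to a diagonal matrix whose entries at `I`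
   are different from the entries outside `I`, where the degree `m` of the field `ℚ(T)` satisfies
   `1 < m < d` and `d ∣ |I| m`. (So the field `ℚ(σ)` has a proper totally real subfield `≠ ℚ`.) -/

set_option autoImplicit false

open Polynomial

namespace Pool.Agent.Results.MP_edeaa2_an.InvariantFactors

variable {d : ℕ}

/-- the product of the linear forms given by the rows of `h`, at an integer point -/
noncomputable def F (h : Matrix (Fin d) (Fin d) ℝ) (x : Fin d → ℤ) : ℝ :=
  ∏ i : Fin d, ∑ j : Fin d, h i j * (x j : ℝ)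

/-- the product of the linear forms is proportional to a form with integer coefficients -/
def PropInt (h : Matrix (Fin d) (Fin d) ℝ) : Prop :=
  ∃ c : ℝ, c ≠ 0 ∧ ∀ m : Fin d →₀ ℕ, ∃ z : ℤ, MvPolynomial.coeff m
    (c • (∏ i : Fin d, ∑ j : Fin d,
      MvPolynomial.C (h i j) * MvPolynomial.X j : MvPolynomial (Fin d) ℝ)) = (z : ℝ)

/-- the infimum of the absolute values at the nonzero integer points is zero -/
def ArbitrarilySmall (h : Matrix (Fin d) (Fin d) ℝ) : Prop :=
  ∀ ε : ℝ, 0 < ε → ∃ x : Fin d → ℤ, x ≠ 0 ∧ |F h x| < ε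

/-- The closure of the set of the matrices `diag(a) g γ` with `∏ a = ±1` and `γ` integral of
determinant `±1`. -/
def Limits (g : Matrix (Fin d) (Fin d) ℝ) : Set (Matrix (Fin d) (Fin d) ℝ) :=
  closure {h | ∃ (a : Fin d → ℝ) (γ : Matrix (Fin d) (Fin d) ℤ), |∏ i, a i| = 1 ∧
    |γ.det| = 1 ∧ h = Matrix.diagonal a * g * γ.map (Int.cast : ℤ → ℝ)}

/-- The span of the rows of `h` with index in `I` is mapped into itself by `l ↦ l σ`. -/
def InvariantSpan (h : Matrix (Fin d) (Fin d) ℝ) (I : Finset (Fin d))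
    (σ : Matrix (Fin d) (Fin d) ℚ) : Prop :=
  ∀ i ∈ I, Matrix.vecMul (h i) (σ.map (Rat.cast : ℚ → ℝ)) ∈
    Submodule.span ℝ ((fun i => h i) '' (I : Set (Fin d)))

lemma rQ_eq (σ : Matrix (Fin d) (Fin d) ℚ) :
    σ.map (Rat.cast : ℚ → ℝ) = Pool.Agent.Q64.IF.rQ d σ := by
  ext i j
  rw [Pool.Agent.Q64.IF.rQ_apply]
  rfl

theorem result (hd : 3 ≤ d) (g : Matrix (Fin d) (Fin d) ℝ) (hg : g.det ≠ 0)
    (h : Matrix (Fin d) (Fin d) ℝ) (hh : h ∈ Limits g) (I : Finset (Fin d)) (hI : I.Nonempty)
    (hI' : I ≠ Finset.univ) (σ : Matrix (Fin d) (Fin d) ℚ) (hinv : InvariantSpan h I σ) :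
    -- 1. the number of the rows is prime to `d`
    (Nat.Coprime I.card d →
      ((minpoly ℚ σ).natDegree = d ∨ (d.Prime ∧ ∀ c : ℚ, σ ≠ c • 1)) →
      PropInt g ∨ ArbitrarilySmall g) ∧
    -- 2. any number of rows
    (Irreducible (minpoly ℚ σ) → (minpoly ℚ σ).natDegree = d →
      PropInt g ∨ ArbitrarilySmall g ∨
      ∃ h' ∈ Limits g, ∃ q : ℚ[X],
        1 < (minpoly ℚ (aeval σ q)).natDegree ∧ (minpoly ℚ (aeval σ q)).natDegree < d ∧
        d ∣ I.card * (minpoly ℚ (aeval σ q)).natDegree ∧
        ∃ x : Fin d → ℝ, h' * (aeval σ q).map (Rat.cast : ℚ → ℝ) = Matrix.diagonal x * h' ∧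
          ∀ i ∈ I, ∀ j ∉ I, x i ≠ x j) := by
  obtain ⟨e, he, hmem⟩ := Pool.Agent.Q64.IF.signs hh
  have hinv' : ∀ i ∈ I, Matrix.vecMul (h i) (Pool.Agent.Q64.IF.rQ d σ) ∈
      Submodule.span ℝ ((fun i => h i) '' (I : Set (Fin d))) := by
    intro i hi
    rw [← rQ_eq]
    exact hinv i hi
  have hinv'' := Pool.Agent.Q64.IF.span_signs he hinv'
  refine ⟨fun hco hσ => ?_, fun hirr hdeg => ?_⟩
  · rcases Pool.Agent.Q64.IF.main_coprime hd hg hmem I hI hI' hco σ hσ hinv'' with h1 | h1
    · exact Or.inr h1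
    · exact Or.inl h1
  · rcases Pool.Agent.Q64.IF.main_irred hd hg hmem I hI hI' σ hirr hdeg hinv'' with
      h1 | h1 | ⟨h', hh', q, h2, h3, h4, x, h5, h6⟩
    · exact Or.inr (Or.inl h1)
    · exact Or.inl h1
    · refine Or.inr (Or.inr ⟨h', ?_, q, h2, h3, h4, x, ?_, h6⟩)
      · refine closure_mono ?_ hh'
        rintro M ⟨a, γ, ha0, ha1, hγ, hM⟩
        exact ⟨a, γ, by rw [ha1, abs_one], Int.isUnit_iff_abs_eq.1 hγ, hM⟩
      · rw [rQ_eq]; exact h5

end Pool.Agent.Results.MP_edeaa2_an.InvariantFactors
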