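import Mathlib
import Pool.Agent.Q215.IS3

/-! # MP_edeaa2_an: forms with the same values, and the classification of the forms which are
bounded away from zero

Let `d ≥ 3`. For a real `d × d` matrix `g` let `F g` be the product of the linear forms given by its
rows. Call `g` and `h` isospectral if `|det g| = |det h|` and the sets of the values `|F g x|` and
`|F h x|` at nonzero integer points `x` have the same closure; call them equivalent if
`F h (x) = F g (γ x)` for some `γ` integral of determinant `±1`, and similar if this holds up to a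
nonzero factor.

1. Let `g` be invertible with `F g` proportional to an integral form and `|F g| ≥ ν > 0` at nonzero
   integer points. Every form which is isospectral to `g` is proportional to an integral form, and
   these forms lie in finitely many classes of equivalent forms.

2. Let `g` be a counterexample to the conjecture of Cassels and Swinnerton-Dyer: invertible, with
   `F g` not proportional to an integral form and `|F g| ≥ ν > 0` at nonzero integer points. Then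
   there is a nonempty closed set `M` of limits of `diag(a) g γ` all of whose members are
   counterexamples with the same `ν` and are isospectral to each other, and in which no countable
   family of invariant Borel sets separates the classes: for each sequence `S n` of Borel sets
   which are invariant under `h ↦ diag(a) h γ` there is `A ⊆ ℕ` such that for each sequence `k n` of
   matrices there is a Cantor set `φ` of pairwise dissimilar members of `M`, not similar to any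
   `k n`, which lie in exactly those `S n` with `n ∈ A`.

3. The following are equivalent: the conjecture in dimension `d`; if `g` is bounded away from zero,
   the forms isospectral to `g` lie in finitely many classes; they lie in countably many classes
   of similar forms; there are countably many Borel sets of matrices, invariant under similarity,
   which separate the classes of similar forms bounded away from zero. -/

set_option autoImplicit false

open Filter Topology Matrix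

namespace Pool.Agent.Results.MP_edeaa2_an.IsospectralForms

variable {d : ℕ}

/-- the product of the linear forms given by the rows of `h`, at an integer point -/
noncomputable def F (h : Matrix (Fin d) (Fin d) ℝ) (x : Fin d → ℤ) : ℝ :=
  ∏ i : Fin d, ∑ j : Fin d, h i j * (x j : ℝ)

/-- the product of the linear forms is proportional to a form with integer coefficients -/
def PropInt (h : Matrix (Fin d) (Fin d) ℝ) : Prop :=
  ∃ c : ℝ, c ≠ 0 ∧ ∀ m : Fin d →₀ ℕ, ∃ z : ℤ, MvPolynomial.coeff m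
    (c • (∏ i : Fin d, ∑ j : Fin d,
      MvPolynomial.C (h i j) * MvPolynomial.X j : MvPolynomial (Fin d) ℝ)) = (z : ℝ)

/-- invertible, and bounded away from zero at the nonzero integer points -/
def Bounded (g : Matrix (Fin d) (Fin d) ℝ) : Prop :=
  g.det ≠ 0 ∧ ∃ ν : ℝ, 0 < ν ∧ ∀ x : Fin d → ℤ, x ≠ 0 → ν ≤ |F g x|

/-- The closure of the set of matrices `diag(a) g γ` with `a` positive of product one and `γ`
integral of determinant `±1`. -/
def OrbitClosure (g : Matrix (Fin d) (Fin d) ℝ) : Set (Matrix (Fin d) (Fin d) ℝ) :=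
  closure {h | ∃ (a : Fin d → ℝ) (γ : Matrix (Fin d) (Fin d) ℤ), (∀ i, 0 < a i) ∧ ∏ i, a i = 1 ∧
    |γ.det| = 1 ∧ h = Matrix.diagonal a * g * γ.map (Int.cast : ℤ → ℝ)}

/-- the same determinant up to sign, and the same closure of the set of absolute values -/
def Isospectral (g h : Matrix (Fin d) (Fin d) ℝ) : Prop :=
  |h.det| = |g.det| ∧ closure {t : ℝ | ∃ x : Fin d → ℤ, x ≠ 0 ∧ |F h x| = t} =
    closure {t : ℝ | ∃ x : Fin d → ℤ, x ≠ 0 ∧ |F g x| = t}

/-- equivalent forms -/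
def Equivalent (g h : Matrix (Fin d) (Fin d) ℝ) : Prop :=
  ∃ γ : Matrix (Fin d) (Fin d) ℤ, |γ.det| = 1 ∧ ∀ x : Fin d → ℤ, F h x = F g (γ *ᵥ x)

/-- equivalent forms, up to a scalar factor -/
def Similar (g h : Matrix (Fin d) (Fin d) ℝ) : Prop :=
  ∃ (c : ℝ) (γ : Matrix (Fin d) (Fin d) ℤ), c ≠ 0 ∧ |γ.det| = 1 ∧
    ∀ x : Fin d → ℤ, F h x = c * F g (γ *ᵥ x)

/-- a Borel set -/
def Borel (S : Set (Matrix (Fin d) (Fin d) ℝ)) : Prop := @MeasurableSet _ (borel _) S

lemma closure_eq (g : Matrix (Fin d) (Fin d) ℝ) : OrbitClosure g = closure (H715R2.Orb g) := by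
  unfold OrbitClosure H715R2.Orb
  congr 1
  ext h
  constructor
  · rintro ⟨a, γ, ha0, ha1, hγ, hh⟩
    exact ⟨a, γ, ha0, ha1, Int.isUnit_iff_abs_eq.2 hγ, hh⟩
  · rintro ⟨a, γ, ha0, ha1, hγ, hh⟩
    exact ⟨a, γ, ha0, ha1, Int.isUnit_iff_abs_eq.1 hγ, hh⟩

lemma eqv_iff (g h : Matrix (Fin d) (Fin d) ℝ) : Equivalent g h ↔ Q215.IS.Eqv g h := by
  constructor
  · rintro ⟨γ, hγ, hx⟩
    exact ⟨γ, Int.isUnit_iff_abs_eq.2 hγ, hx⟩
  · rintro ⟨γ, hγ, hx⟩
    exact ⟨γ, Int.isUnit_iff_abs_eq.1 hγ, hx⟩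

lemma sim_iff (g h : Matrix (Fin d) (Fin d) ℝ) : Similar g h ↔ Q215.IS.EqvS g h := by
  constructor
  · rintro ⟨c, γ, hc, hγ, hx⟩
    exact ⟨c, γ, hc, Int.isUnit_iff_abs_eq.2 hγ, hx⟩
  · rintro ⟨c, γ, hc, hγ, hx⟩
    exact ⟨c, γ, hc, Int.isUnit_iff_abs_eq.1 hγ, hx⟩

theorem result (d : ℕ) (hd : 3 ≤ d) :
    -- 1. forms which are proportional to integral forms
    (∀ g : Matrix (Fin d) (Fin d) ℝ, Bounded g → PropInt g →
      (∀ h, Isospectral g h → PropInt h) ∧
      ∃ T : Finset (Matrix (Fin d) (Fin d) ℝ), ∀ h, Isospectral g h → ∃ k ∈ T, Equivalent k h) ∧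
    -- 2. counterexamples
    (∀ g : Matrix (Fin d) (Fin d) ℝ, g.det ≠ 0 → ¬ PropInt g →
      ∀ ν : ℝ, 0 < ν → (∀ x : Fin d → ℤ, x ≠ 0 → ν ≤ |F g x|) →
      ∃ M ⊆ OrbitClosure g, IsClosed M ∧ M.Nonempty ∧
        (∀ h ∈ M, h.det ≠ 0 ∧ ¬ PropInt h ∧ (∀ x : Fin d → ℤ, x ≠ 0 → ν ≤ |F h x|) ∧
          ∀ h' ∈ M, Isospectral h h') ∧
        ∀ S : ℕ → Set (Matrix (Fin d) (Fin d) ℝ), (∀ n, Borel (S n)) →
          (∀ n, ∀ h ∈ S n, ∀ (a : Fin d → ℝ) (γ : Matrix (Fin d) (Fin d) ℤ), (∀ i, 0 < a i) →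
            ∏ i, a i = 1 → |γ.det| = 1 →
              Matrix.diagonal a * h * γ.map (Int.cast : ℤ → ℝ) ∈ S n) →
          ∃ A : Set ℕ, ∀ k : ℕ → Matrix (Fin d) (Fin d) ℝ,
            ∃ φ : (ℕ → Bool) → Matrix (Fin d) (Fin d) ℝ, Continuous φ ∧
              (∀ b, φ b ∈ M ∧ (∀ n, φ b ∈ S n ↔ n ∈ A) ∧ ∀ n, ¬ Similar (k n) (φ b)) ∧
              ∀ b b', b ≠ b' → ¬ Similar (φ b) (φ b')) ∧
    -- 3. equivalent forms of the conjecture
    List.TFAE [
      ∀ g : Matrix (Fin d) (Fin d) ℝ, Bounded g → PropInt g,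
      ∀ g : Matrix (Fin d) (Fin d) ℝ, Bounded g → ∃ T : Finset (Matrix (Fin d) (Fin d) ℝ),
        ∀ h, Isospectral g h → ∃ k ∈ T, Equivalent k h,
      ∀ g : Matrix (Fin d) (Fin d) ℝ, Bounded g → ∃ k : ℕ → Matrix (Fin d) (Fin d) ℝ,
        ∀ h, Isospectral g h → ∃ n, Similar (k n) h,
      ∃ S : ℕ → Set (Matrix (Fin d) (Fin d) ℝ), (∀ n, Borel (S n)) ∧
        (∀ n, ∀ g ∈ S n, ∀ h, Similar g h → h ∈ S n) ∧
        ∀ g h : Matrix (Fin d) (Fin d) ℝ, Bounded g → Bounded h →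
          (∀ n, g ∈ S n ↔ h ∈ S n) → Similar g h] := by
  have hd0 : 0 < d := by omega
  refine ⟨?_, ?_, ?_⟩
  · rintro g ⟨hg, ν, hν, hF⟩ hP
    refine ⟨fun h hh => Q215.IS.propInt_iso hd hg hν hF hP hh, ?_⟩
    obtain ⟨T, hT⟩ := Q215.IS.finite_iso hd0 hg hν hF hP
    refine ⟨T, fun h hh => ?_⟩
    obtain ⟨k, hk, hkh⟩ := hT h hh
    exact ⟨k, hk, (eqv_iff _ _).2 hkh⟩
  · intro g hg hint ν hν hF
    obtain ⟨M, hMg, hMc, hMne, hMinv, hMmin⟩ := H715R2.exists_minimal hd0 hν hg hF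
    refine ⟨M, by rw [closure_eq]; exact hMg, hMc, hMne, fun h hh => ⟨?_, ?_, ?_, ?_⟩, ?_⟩
    · intro h0
      have := H715R2.abs_det_closure (hMg hh)
      rw [h0, abs_zero] at this
      exact hg (abs_eq_zero.1 this.symm)
    · exact Q215.IS.not_propInt_of_minimal hd hg hν hF hint hMg hMc hMne hMinv hMmin h hh
    · exact H715R2.hasNu_closure hF (hMg hh)
    · intro h' hh'
      exact Q215.IS.iso_of_minimal hMg hMc hMinv hMmin hh hh'
    · intro S hS hSinv
      obtain ⟨A, hA⟩ := Q215.IS.generic hd hg hν hF hint hMg hMc hMne hMinv hMmin S hS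
        (fun n h hh a γ ha0 ha hγ => hSinv n h hh a γ ha0 ha (Int.isUnit_iff_abs_eq.1 hγ))
      refine ⟨A, fun k => ?_⟩
      obtain ⟨φ, hφ, h1, h2⟩ := hA k
      refine ⟨φ, hφ, fun b => ?_, fun b b' hbb => ?_⟩
      · obtain ⟨h3, h4, h5⟩ := h1 b
        exact ⟨h3, h4, fun n hn => h5 n ((sim_iff _ _).1 hn)⟩
      · exact fun hn => h2 b b' hbb ((sim_iff _ _).1 hn)
  · have key := Q215.IS.tfae (d := d) hd
    simp only [Q215.IS.Conj, ← eqv_iff, ← sim_iff] at key
    have e1 : (∀ g : Matrix (Fin d) (Fin d) ℝ, g.det ≠ 0 → (∃ ν, 0 < ν ∧ H715R2.HasNu g ν) →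
        H715R2.PropInt g) ↔ ∀ g : Matrix (Fin d) (Fin d) ℝ, Bounded g → PropInt g :=
      ⟨fun h g hg => h g hg.1 hg.2, fun h g hg hb => h g ⟨hg, hb⟩⟩
    have e2 : (∀ g : Matrix (Fin d) (Fin d) ℝ, g.det ≠ 0 → (∃ ν, 0 < ν ∧ H715R2.HasNu g ν) →
        ∃ T : Finset (Matrix (Fin d) (Fin d) ℝ), ∀ h, Q215.IS.Iso g h → ∃ k ∈ T,
          Equivalent k h) ↔
        ∀ g : Matrix (Fin d) (Fin d) ℝ, Bounded g → ∃ T : Finset (Matrix (Fin d) (Fin d) ℝ),
        ∀ h, Isospectral g h → ∃ k ∈ T, Equivalent k h :=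
      ⟨fun h g hg => h g hg.1 hg.2, fun h g hg hb => h g ⟨hg, hb⟩⟩
    have e3 : (∀ g : Matrix (Fin d) (Fin d) ℝ, g.det ≠ 0 → (∃ ν, 0 < ν ∧ H715R2.HasNu g ν) →
        ∃ k : ℕ → Matrix (Fin d) (Fin d) ℝ, ∀ h, Q215.IS.Iso g h → ∃ n, Similar (k n) h) ↔
        ∀ g : Matrix (Fin d) (Fin d) ℝ, Bounded g → ∃ k : ℕ → Matrix (Fin d) (Fin d) ℝ,
        ∀ h, Isospectral g h → ∃ n, Similar (k n) h :=
      ⟨fun h g hg => h g hg.1 hg.2, fun h g hg hb => h g ⟨hg, hb⟩⟩
    have e4 : (∃ S : ℕ → Set (Matrix (Fin d) (Fin d) ℝ), (∀ n, @MeasurableSet _ (borel _) (S n)) ∧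
        (∀ n, ∀ g ∈ S n, ∀ h, Similar g h → h ∈ S n) ∧
        ∀ g h : Matrix (Fin d) (Fin d) ℝ, g.det ≠ 0 → h.det ≠ 0 →
          (∃ ν, 0 < ν ∧ H715R2.HasNu g ν) → (∃ ν, 0 < ν ∧ H715R2.HasNu h ν) →
          (∀ n, g ∈ S n ↔ h ∈ S n) → Similar g h) ↔
        ∃ S : ℕ → Set (Matrix (Fin d) (Fin d) ℝ), (∀ n, Borel (S n)) ∧
        (∀ n, ∀ g ∈ S n, ∀ h, Similar g h → h ∈ S n) ∧
        ∀ g h : Matrix (Fin d) (Fin d) ℝ, Bounded g → Bounded h →
          (∀ n, g ∈ S n ↔ h ∈ S n) → Similar g h := by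
      constructor
      · rintro ⟨S, h1, h2, h3⟩
        exact ⟨S, h1, h2, fun g h hg hh => h3 g h hg.1 hh.1 hg.2 hh.2⟩
      · rintro ⟨S, h1, h2, h3⟩
        exact ⟨S, h1, h2, fun g h hg hh hgb hhb => h3 g h ⟨hg, hgb⟩ ⟨hh, hhb⟩⟩
    rw [e1, e2, e3, e4] at key
    exact key

end Pool.Agent.Results.MP_edeaa2_an.IsospectralForms
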