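import Mathlib
import Pool.Agent.Q83.DN.E

/-!
# MP_edeaa2_an: products of linear forms with noise of dimension 0 in one form

Let `d ≥ 3` and let `F` be the product of the linear forms given by the rows of a real `d × d`
matrix `g`.  Replace one row `g i` by `g i + t w`, where `w` is any vector which is not proportional
to `g i` (for instance `w = e_j`: a single coefficient is perturbed).

1. The set of all real `t` for which the new product is nondegenerate and has no small values at
nonzero integer points is contained in a countable union of sets each of which is porous in the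
strongest sense: every interval of length `l ≤ l₀` contains an interval of length `c l` free of
points of the set.
2. If `t = x + r ξ`, `r ≠ 0`, where the digits of `ξ` in some base `b` are unpredictable (the `n`-th
digit has, given the earlier ones, each of its values with conditional probability at least `p n`,
and `∑ n, p n * ... * p (n + M - 1) = ∞` for all `M`), then almost surely the new product takes
arbitrarily small values.  The law of the noise may have dimension 0.
3. In particular fair digits at the places of an arbitrarily sparse set with long intervals suffice.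
-/

set_option autoImplicit false

open MeasureTheory Filter Topology Finset
open scoped ENNReal

namespace Pool.Agent.Results.MP_edeaa2_an.NoisyCoefficient

/-- the product of the linear forms given by the rows of `g` at an integer point -/
def F {d : ℕ} (g : Matrix (Fin d) (Fin d) ℝ) (y : Fin d → ℤ) : ℝ := ∏ i, ∑ j, g i j * (y j : ℝ)

/-- `inf |F| = 0` over the nonzero integer points -/
def Small {d : ℕ} (g : Matrix (Fin d) (Fin d) ℝ) : Prop :=
  ∀ ε : ℝ, 0 < ε → ∃ y : Fin d → ℤ, y ≠ 0 ∧ |F g y| < ε

/-- the row `i` of `g` is replaced by `g i + t w` -/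
def perturb {d : ℕ} (g : Matrix (Fin d) (Fin d) ℝ) (i : Fin d) (w : Fin d → ℝ) (t : ℝ) :
    Matrix (Fin d) (Fin d) ℝ := g.updateRow i (g i + t • w)

/-- Uniformly porous: every interval of length `l ≤ l₀` contains an interval of length `c l` which
does not meet `E`. -/
def Porous (E : Set ℝ) : Prop :=
  ∃ c l₀ : ℝ, 0 < c ∧ 0 < l₀ ∧ ∀ a l : ℝ, 0 < l → l ≤ l₀ →
    ∃ a' : ℝ, a ≤ a' ∧ a' + c * l ≤ a + l ∧ ∀ t ∈ Set.Icc a' (a' + c * l), t ∉ E

/-- Given the digits before the `n`-th, the `n`-th digit takes each value with conditional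
probability at least `p n`. -/
structure Unpredictable {Ω : Type} [MeasurableSpace Ω] {b : ℕ} (P : Measure Ω)
    (X : ℕ → Ω → Fin b) (p : ℕ → ℝ) : Prop where
  meas : ∀ i, Measurable (X i)
  nonneg : ∀ i, 0 ≤ p i
  cond : ∀ (n : ℕ) (w : ℕ → Fin b),
    p n * P.real {ω | ∀ i < n, X i ω = w i} ≤ P.real {ω | ∀ i ≤ n, X i ω = w i}

/-- `∑ n, p n * p (n + 1) * ... * p (n + M - 1) = ∞` for every `M` -/
def Divergent (p : ℕ → ℝ) : Prop := ∀ M : ℕ, ¬ Summable fun n => ∏ i ∈ range M, p (n + i)

/-- `T` contains arbitrarily long intervals. -/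
def Thick (T : Set ℕ) : Prop := ∀ M : ℕ, ∃ n, ∀ i < M, n + i ∈ T

/-- a fair digit in base `b` -/
noncomputable def fair (b : ℕ) : Measure (Fin b) := (b : ℝ≥0∞)⁻¹ • Measure.count

open Classical in
/-- independent digits: fair at the places in `T`, equal to the prescribed digits `c` elsewhere -/
noncomputable def noise {b : ℕ} (c : ℕ → Fin b) (T : Set ℕ) : Measure (ℕ → Fin b) :=
  Measure.infinitePi fun i => if i ∈ T then fair b else Measure.dirac (c i)

lemma F_eq {d : ℕ} (g : Matrix (Fin d) (Fin d) ℝ) (y : Fin d → ℤ) :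
    F g y = ∏ i, Pool.Agent.Q83.DN.val g y i := rfl

/-- **Main result.** -/
theorem result (d : ℕ) (hd : 3 ≤ d) (g : Matrix (Fin d) (Fin d) ℝ) (i : Fin d) (w : Fin d → ℝ)
    (hw : LinearIndependent ℝ ![g i, w]) :
    -- 1. the exceptional parameters
    (∃ E : ℕ → Set ℝ, (∀ k, Porous (E k)) ∧
      {t | (perturb g i w t).det ≠ 0 ∧ ¬ Small (perturb g i w t)} ⊆ ⋃ k, E k) ∧
    -- 2. random parameters with unpredictable digits
    (g.det ≠ 0 → ∀ b : ℕ, 2 ≤ b → ∀ (Ω : Type) [MeasurableSpace Ω] (P : Measure Ω)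
      [IsProbabilityMeasure P] (X : ℕ → Ω → Fin b) (p : ℕ → ℝ), Unpredictable P X p →
      Divergent p → ∀ x r : ℝ, r ≠ 0 →
        ∀ᵐ ω ∂P, (perturb g i w (x + r * Real.ofDigits fun n => X n ω)).det ≠ 0 ∧
          Small (perturb g i w (x + r * Real.ofDigits fun n => X n ω))) ∧
    -- 3. fair digits at the places of a thick set
    (g.det ≠ 0 → ∀ b : ℕ, 2 ≤ b → ∀ (c : ℕ → Fin b) (T : Set ℕ), Thick T → ∀ x r : ℝ, r ≠ 0 →
      ∀ᵐ ω ∂(noise c T), (∀ n ∉ T, ω n = c n) ∧
        (perturb g i w (x + r * Real.ofDigits ω)).det ≠ 0 ∧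
          Small (perturb g i w (x + r * Real.ofDigits ω))) := by
  refine ⟨?_, ?_, ?_⟩
  · obtain ⟨E, hE, hsub⟩ := Pool.Agent.Q83.DN.bad_porous hd g i w hw
    refine ⟨E, hE, ?_⟩
    rintro t ⟨ht, hns⟩
    apply hsub
    unfold Small at hns
    push Not at hns
    exact ⟨ht, hns⟩
  · intro hg b hb Ω _ P _ X p hX hp x r hr
    exact Pool.Agent.Q83.DN.noisy_forms hb ⟨hX.meas, hX.nonneg, hX.cond⟩ hp hd g hg i w hw x r hr
  · intro hg b hb c T hT x r hr
    obtain ⟨hprob, hU⟩ := Pool.Agent.Q83.DN.noise_unp c T hb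
    have h1 := Pool.Agent.Q83.DN.noisy_forms hb hU (Pool.Agent.Q83.DN.thick_divergent T hb hT)
      hd g hg i w hw x r hr
    have h2 := Pool.Agent.Q83.DN.noise_off c T hb
    change ∀ᵐ ω ∂(Pool.Agent.Q83.DN.noise c T), _
    filter_upwards [h1, h2] with ω h1 h2
    exact ⟨h2, h1⟩

end Pool.Agent.Results.MP_edeaa2_an.NoisyCoefficient
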