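import Mathlib
import Pool.Agent.Q64.IG.Conv

/-! # MP_edeaa2_an: reduced bases which differ by matrices commuting with a rational matrix

Let `d ≥ 3`, let `g` be a real invertible `d × d` matrix, `F` the product of the linear forms given
by its rows, and let `e j`, `j < d`, be the dual basis (the columns of the inverse of `g`). A matrix
`P` in `GL_d(ℤ)` is `C`-reduced if the product of the lengths of the vectors `P (e j)` is at most
`C`. If `F` is bounded away from zero at the nonzero integer points, then there are `C`-reduced `P`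
with prescribed lengths of the vectors `P (e j)`, up to a constant (4).

Let `σ` be a rational matrix. We suppose that `d` is prime and `σ` is not scalar, or that `d` is
arbitrary and `σ` generates a field of degree `d` which has no proper subfield but `ℚ`.

1. Let `P` and `Q P` be `C`-reduced matrices of any counterexample to the conjecture of Cassels and
   Swinnerton-Dyer with determinant `±V` and `|F| ≥ c` at the nonzero integer points. Then `Q` is
   bounded or does not nearly commute with `σ`: with constants `R`, `η > 0` which depend only on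
   `d`, `V`, `c`, `C`, `σ` we have `|Q| ≤ R` or `|Q σ - σ Q| ≥ η |Q|`. In particular only finitely
   many `Q` which commute with `σ` occur, for all counterexamples together.
2. So there is `N`, which depends only on `d`, `V`, `c`, `C`, `σ`, such that `F` is proportional to
   an integral form if `|det g| = V`, `|F| ≥ c` and a coset `{Q P : Q σ = σ Q}` contains more than
   `N` matrices which are `C`-reduced.
3. Let `d` be prime and `F` bounded away from zero. Then `F` is proportional to an integral form if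
   and only if some coset of this kind contains infinitely many `C`-reduced matrices.

The proof rests on the theorem on invariant factors (`MP_edeaa2_an.InvariantFactors`) and on an
isolation theorem for sequences of forms, proved here: forms with `|F| ≥ c` which converge to a
multiple of an integral form are finally multiples of integral forms. -/

set_option autoImplicit false

open Polynomial

namespace Pool.Agent.Results.MP_edeaa2_an.UniformLinks

variable {d : ℕ}

/-- the product of the linear forms given by the rows of `g`, at an integer point -/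
noncomputable def F (g : Matrix (Fin d) (Fin d) ℝ) (x : Fin d → ℤ) : ℝ :=
  ∏ i : Fin d, ∑ j : Fin d, g i j * (x j : ℝ)

/-- the product of the linear forms is proportional to a form with integer coefficients -/
def PropInt (g : Matrix (Fin d) (Fin d) ℝ) : Prop :=
  ∃ c : ℝ, c ≠ 0 ∧ ∀ m : Fin d →₀ ℕ, ∃ z : ℤ, MvPolynomial.coeff m
    (c • (∏ i : Fin d, ∑ j : Fin d,
      MvPolynomial.C (g i j) * MvPolynomial.X j : MvPolynomial (Fin d) ℝ)) = (z : ℝ)

/-- the image under `P` of the vector `e j` of the dual basis -/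
noncomputable def vec (g : Matrix (Fin d) (Fin d) ℝ) (P : Matrix (Fin d) (Fin d) ℤ) (j : Fin d) :
    Fin d → ℝ := fun i => (P.map (Int.cast : ℤ → ℝ) * g⁻¹) i j

/-- `P` is `C`-reduced with respect to `g`. The norm is the maximum norm. -/
def Reduced (C : ℝ) (g : Matrix (Fin d) (Fin d) ℝ) (P : Matrix (Fin d) (Fin d) ℤ) : Prop :=
  |P.det| = 1 ∧ ∏ j, ‖vec g P j‖ ≤ C

/-- the integral matrix `Q` commutes with the rational matrix `σ` -/
def Commutes (Q : Matrix (Fin d) (Fin d) ℤ) (σ : Matrix (Fin d) (Fin d) ℚ) : Prop :=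
  Q.map (Int.cast : ℤ → ℚ) * σ = σ * Q.map (Int.cast : ℤ → ℚ)

/-- `d` is prime and `σ` is not scalar, or `σ` generates a field of degree `d` without proper
intermediate fields -/
def Primitive (σ : Matrix (Fin d) (Fin d) ℚ) : Prop :=
  (d.Prime ∧ ∀ q : ℚ, σ ≠ q • 1) ∨ (Irreducible (minpoly ℚ σ) ∧ (minpoly ℚ σ).natDegree = d ∧
    ∀ q : ℚ[X], (minpoly ℚ (aeval σ q)).natDegree = 1 ∨ (minpoly ℚ (aeval σ q)).natDegree = d)

/-- the sum of the absolute values of the entries -/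
def nrm (M : Matrix (Fin d) (Fin d) ℝ) : ℝ := ∑ i, ∑ j, |M i j|

lemma commutes_iff (Q : Matrix (Fin d) (Fin d) ℤ) (σ : Matrix (Fin d) (Fin d) ℚ) :
    Commutes Q σ ↔ H715R2.zR Q * Pool.Agent.Q64.IF.rQ d σ =
      Pool.Agent.Q64.IF.rQ d σ * H715R2.zR Q := by
  rw [Pool.Agent.Q64.IG.zR_eq_rQ, ← map_mul, ← map_mul]
  constructor
  · intro h
    rw [show Q.map (Int.cast : ℤ → ℚ) * σ = σ * Q.map (Int.cast : ℤ → ℚ) from h]
  · intro h
    ext i j
    have h1 := congrFun (congrFun h i) j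
    rw [Pool.Agent.Q64.IF.rQ_apply, Pool.Agent.Q64.IF.rQ_apply] at h1
    exact_mod_cast h1

theorem result (hd : 3 ≤ d) :
    -- 1. links do not nearly commute with `σ`
    (∀ (V c C : ℝ), 0 < V → 0 < c → ∀ σ : Matrix (Fin d) (Fin d) ℚ, Primitive σ →
      ∃ R η : ℝ, 0 < η ∧ ∀ (g : Matrix (Fin d) (Fin d) ℝ) (P Q : Matrix (Fin d) (Fin d) ℤ),
        |g.det| = V → (∀ x : Fin d → ℤ, x ≠ 0 → c ≤ |F g x|) → ¬ PropInt g → Reduced C g P →
        Reduced C g (Q * P) →
          nrm (Q.map (Int.cast : ℤ → ℝ)) ≤ R ∨ η * nrm (Q.map (Int.cast : ℤ → ℝ)) ≤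
            nrm (Q.map (Int.cast : ℤ → ℝ) * σ.map (Rat.cast : ℚ → ℝ) -
              σ.map (Rat.cast : ℚ → ℝ) * Q.map (Int.cast : ℤ → ℝ))) ∧
    -- 2. a criterion
    (∀ (V c C : ℝ), 0 < V → 0 < c → ∀ σ : Matrix (Fin d) (Fin d) ℚ, Primitive σ → ∃ N : ℕ,
      ∀ (g : Matrix (Fin d) (Fin d) ℝ) (P : Matrix (Fin d) (Fin d) ℤ), |g.det| = V →
        (∀ x : Fin d → ℤ, x ≠ 0 → c ≤ |F g x|) → |P.det| = 1 →
        (N : ℕ∞) < {P' : Matrix (Fin d) (Fin d) ℤ | Reduced C g P' ∧
          ∃ Q : Matrix (Fin d) (Fin d) ℤ, Commutes Q σ ∧ P' = Q * P}.encard → PropInt g) ∧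
    -- 3. a characterisation for prime `d`
    (d.Prime → ∀ g : Matrix (Fin d) (Fin d) ℝ, g.det ≠ 0 →
      (∃ c : ℝ, 0 < c ∧ ∀ x : Fin d → ℤ, x ≠ 0 → c ≤ |F g x|) →
      (PropInt g ↔ ∃ (σ : Matrix (Fin d) (Fin d) ℚ) (C : ℝ) (P : Matrix (Fin d) (Fin d) ℤ),
        (∀ q : ℚ, σ ≠ q • 1) ∧ |P.det| = 1 ∧
        {P' : Matrix (Fin d) (Fin d) ℤ | Reduced C g P' ∧
          ∃ Q : Matrix (Fin d) (Fin d) ℤ, Commutes Q σ ∧ P' = Q * P}.Infinite)) ∧
    -- 4. reduced matrices with prescribed lengths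
    (∀ (V c : ℝ), 0 < V → 0 < c → ∃ C : ℝ, ∀ g : Matrix (Fin d) (Fin d) ℝ, |g.det| = V →
      (∀ x : Fin d → ℤ, x ≠ 0 → c ≤ |F g x|) → ∀ t : Fin d → ℝ, (∀ j, 0 < t j) → ∏ j, t j = 1 →
        ∃ P : Matrix (Fin d) (Fin d) ℤ, |P.det| = 1 ∧ ∀ j, ‖vec g P j‖ ≤ C * t j) := by
  classical
  have part1 : ∀ (V c C : ℝ), 0 < V → 0 < c → ∀ σ : Matrix (Fin d) (Fin d) ℚ, Primitive σ →
      {Q : Matrix (Fin d) (Fin d) ℤ | Commutes Q σ ∧
        ∃ (g : Matrix (Fin d) (Fin d) ℝ) (P : Matrix (Fin d) (Fin d) ℤ), |g.det| = V ∧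
          (∀ x : Fin d → ℤ, x ≠ 0 → c ≤ |F g x|) ∧ ¬ PropInt g ∧ Reduced C g P ∧
          Reduced C g (Q * P)}.Finite := by
    intro V c C hV hc σ hσ
    refine (Pool.Agent.Q64.IG.links hd hV hc C (σ := σ) hσ).subset ?_
    rintro Q ⟨h1, g, P, h2, h3, h4, h5, h6⟩
    exact ⟨(commutes_iff Q σ).1 h1, g, P, h2, h3, h4, h5, h6⟩
  have part2 : ∀ (V c C : ℝ), 0 < V → 0 < c → ∀ σ : Matrix (Fin d) (Fin d) ℚ, Primitive σ →
      ∃ N : ℕ, ∀ (g : Matrix (Fin d) (Fin d) ℝ) (P : Matrix (Fin d) (Fin d) ℤ), |g.det| = V →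
        (∀ x : Fin d → ℤ, x ≠ 0 → c ≤ |F g x|) → |P.det| = 1 →
        (N : ℕ∞) < {P' : Matrix (Fin d) (Fin d) ℤ | Reduced C g P' ∧
          ∃ Q : Matrix (Fin d) (Fin d) ℤ, Commutes Q σ ∧ P' = Q * P}.encard → PropInt g := by
    intro V c C hV hc σ hσ
    have hfin := part1 V c C hV hc σ hσ
    set S := {Q : Matrix (Fin d) (Fin d) ℤ | Commutes Q σ ∧
        ∃ (g : Matrix (Fin d) (Fin d) ℝ) (P : Matrix (Fin d) (Fin d) ℤ), |g.det| = V ∧
          (∀ x : Fin d → ℤ, x ≠ 0 → c ≤ |F g x|) ∧ ¬ PropInt g ∧ Reduced C g P ∧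
          Reduced C g (Q * P)} with hS
    refine ⟨S.ncard, fun g P hgV hnu hP hcard => ?_⟩
    by_contra hint
    set R := {P' : Matrix (Fin d) (Fin d) ℤ | Reduced C g P' ∧
          ∃ Q : Matrix (Fin d) (Fin d) ℤ, Commutes Q σ ∧ P' = Q * P} with hR
    apply absurd hcard (not_lt.2 _)
    rcases R.eq_empty_or_nonempty with h0 | ⟨P₁, hP₁, Q₁, hQ₁, hQP₁⟩
    · rw [h0, Set.encard_empty]
      exact zero_le
    · have hdet1 : |P₁.det| = 1 := hP₁.1
      have hQ1det : |Q₁.det| = 1 := by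
        rw [hQP₁, Matrix.det_mul, abs_mul, hP, mul_one] at hdet1
        exact hdet1
      have hQ1u : IsUnit Q₁.det := Int.isUnit_iff_abs_eq.2 hQ1det
      have hsub : R ⊆ (fun Q => Q * P₁) '' S := by
        rintro P' ⟨h1, Q, hQ, rfl⟩
        have h2 : Q * Q₁⁻¹ * P₁ = Q * P := by
          rw [hQP₁, Matrix.mul_assoc, ← Matrix.mul_assoc Q₁⁻¹, Matrix.nonsing_inv_mul _ hQ1u,
            Matrix.one_mul]
        refine ⟨Q * Q₁⁻¹, ⟨?_, g, P₁, hgV, hnu, hint, hP₁, ?_⟩, h2⟩
        · rw [commutes_iff] at hQ hQ₁ ⊢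
          have h3 : H715R2.zR Q₁⁻¹ * Pool.Agent.Q64.IF.rQ d σ =
              Pool.Agent.Q64.IF.rQ d σ * H715R2.zR Q₁⁻¹ := by
            calc H715R2.zR Q₁⁻¹ * Pool.Agent.Q64.IF.rQ d σ
                = H715R2.zR Q₁⁻¹ * (Pool.Agent.Q64.IF.rQ d σ * H715R2.zR Q₁) *
                    H715R2.zR Q₁⁻¹ := by
                  rw [Matrix.mul_assoc, Matrix.mul_assoc, H715R2.zR_inv hQ1u, Matrix.mul_one]
              _ = _ := by
                  rw [← hQ₁, ← Matrix.mul_assoc, H715R2.zR_inv' hQ1u, Matrix.one_mul]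
          rw [H715R2.zR_mul, Matrix.mul_assoc, h3, ← Matrix.mul_assoc, hQ, Matrix.mul_assoc]
        · rw [h2]; exact h1
      calc R.encard ≤ ((fun Q => Q * P₁) '' S).encard := Set.encard_le_encard hsub
        _ ≤ S.encard := Set.encard_image_le _ _
        _ = (S.ncard : ℕ∞) := (hfin.cast_ncard_eq).symm
  refine ⟨?_, part2, ?_, ?_⟩
  · intro V c C hV hc σ hσ
    obtain ⟨R, η, hη, h⟩ := Pool.Agent.Q64.IG.links_near hd hV hc C (σ := σ) hσ
    refine ⟨R, η, hη, fun g P Q h1 h2 h3 h4 h5 => ?_⟩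
    have h6 : σ.map (Rat.cast : ℚ → ℝ) = Pool.Agent.Q64.IF.rQ d σ := by
      ext i j
      rw [Pool.Agent.Q64.IF.rQ_apply]
      rfl
    rw [h6]
    exact h g P Q h1 h2 h3 h4 h5
  · rintro hp g hg ⟨c, hc, hnu⟩
    constructor
    · intro hint
      obtain ⟨σ, hσ, C, hinf⟩ := Pool.Agent.Q64.IG.conv hd hg hc hnu hint
      refine ⟨σ, C, 1, hσ, by rw [Matrix.det_one, abs_one], hinf.mono ?_⟩
      rintro P ⟨h1, h2⟩
      exact ⟨h1, P, (commutes_iff P σ).2 h2, by rw [Matrix.mul_one]⟩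
    · rintro ⟨σ, C, P, hσ, hP, hinf⟩
      obtain ⟨N, hN⟩ := part2 |g.det| c C (abs_pos.2 hg) hc σ (Or.inl ⟨hp, hσ⟩)
      refine hN g P rfl hnu hP ?_
      rw [hinf.encard_eq]
      exact ENat.coe_lt_top N
  · intro V c hV hc
    exact Pool.Agent.Q64.IG.exists_red hd hV hc

end Pool.Agent.Results.MP_edeaa2_an.UniformLinks
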